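import Mathlib
import Pool.Agent.Work.MP_9b6dd6_al.Stmt
import Pool.Agent.Work.MP_9b6dd6_al.StmtProof

/-! # A basis of identities of the octonion algebras over fields of characteristic 0 -/

namespace Pool.Agent.Results.MP_9b6dd6_al.OctonionBasis

open OctStmt

universe u v

/-- For every octonion algebra `A` over a field `F` of characteristic 0, a polynomial is an
identity of `A` if and only if it lies in every T-ideal that contains the five polynomials
of `basis F`. -/
theorem result (F : Type u) [Field F] [CharZero F] (A : Type v) [NonUnitalNonAssocRing A]
    [Module F A] [IsScalarTower F A A] [SMulCommClass F A A] (hA : IsOctonion F A)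
    (f : FreeNonUnitalNonAssocAlgebra F ℕ) :
    IsIdentity F A f ↔ ∀ I, IsTIdeal F I → basis F ⊆ I → f ∈ I :=
  OctStmt.main F A hA f

end Pool.Agent.Results.MP_9b6dd6_al.OctonionBasis
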